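import Pool.Agent.H46.SK.Targets

/-!
# MP_2fe131_nt, module BLK
-/

namespace Pool.Agent.H21.SK

open _root_.SK Finset

theorem val_two_mul (k : ℕ) [Fact k.Prime] (y : ZMod k) : (2 * y : ZMod k).val = (2 * y.val) % k := by
  have : (2 * y : ZMod k) = ((2 * y.val : ℕ) : ZMod k) := by
    push_cast
    rw [ZMod.natCast_zmod_val]
  rw [this, ZMod.val_natCast]

theorem eps_low (k : ℕ) [Fact k.Prime] (y : ZMod k) (h0 : 0 < y.val) (h1 : 2 * y.val < k) :
    eps k (2 * y) = -1 := by
  have hv : (2 * y : ZMod k).val = 2 * y.val := by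
    rw [val_two_mul, Nat.mod_eq_of_lt h1]
  have hne : (2 * y : ZMod k) ≠ 0 := by
    intro h
    rw [h, ZMod.val_zero] at hv
    omega
  rw [eps, if_neg hne, if_neg]
  rw [hv]
  omega

theorem eps_high (k : ℕ) [Fact k.Prime] (hk : k ≠ 2) (y : ZMod k) (h1 : k < 2 * y.val) :
    eps k (2 * y) = 1 := by
  have hlt : y.val < k := ZMod.val_lt y
  have hodd : k % 2 = 1 := (Nat.Prime.eq_two_or_odd (Fact.out : k.Prime)).resolve_left hk
  have hv : (2 * y : ZMod k).val = 2 * y.val - k := by
    rw [val_two_mul, Nat.mod_eq_sub_mod h1.le, Nat.mod_eq_of_lt (by omega)]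
  have hne : (2 * y : ZMod k) ≠ 0 := by
    intro h
    rw [h, ZMod.val_zero] at hv
    omega
  rw [eps, if_neg hne, if_pos]
  rw [hv]
  omega

theorem eps_abs (k : ℕ) (x : ZMod k) : |eps k x| ≤ 1 := by
  unfold eps
  split_ifs <;> norm_num

/-- The model sign. -/
def sg (q j : ℕ) : ℝ := (if q ≤ 2 * j then 1 else 0) - (if 2 * (j + 1) ≤ q then 1 else 0)

theorem sg_abs (q j : ℕ) : |sg q j| ≤ 1 := by
  unfold sg
  split_ifs <;> norm_num

theorem sg_sum (q : ℕ) : ∑ j ∈ range q, sg q j = 0 := by
  unfold sg
  rw [Finset.sum_sub_distrib, sub_eq_zero, ← Finset.sum_range_reflect]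
  refine Finset.sum_congr rfl fun j hj => ?_
  rw [mem_range] at hj
  congr 1
  refine propext ⟨fun h => ?_, fun h => ?_⟩ <;> omega

/-- The exceptional residues. -/
def ex (q : ℕ) : Finset ℕ := {0, 1, q - 1, q / 2 - 1, q / 2, q / 2 + 1}

theorem ex_card (q : ℕ) : #(ex q) ≤ 6 := Finset.card_le_six

theorem pf_BLK : TARGET_BLK := by
  classical
  intro k hkF hk2 θ c q a hq hgcd hz
  have hkp : k.Prime := hkF.out
  have hk0 : 0 < k := hkp.pos
  have hkZ : (0 : ℤ) < k := by exact_mod_cast hk0
  have hqZ : (0 : ℤ) < q := by exact_mod_cast hq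
  have hodd : k % 2 = 1 := (Nat.Prime.eq_two_or_odd hkp).resolve_left hk2
  set z : ℤ := (q : ℤ) * (θ.val : ℤ) - a * k with hzdef
  have h2ne : (2 : ZMod k) ≠ 0 := by
    intro h
    have h' : ((2 : ℕ) : ZMod k) = 0 := by exact_mod_cast h
    rw [ZMod.natCast_eq_zero_iff] at h'
    have := Nat.le_of_dvd (by norm_num) h'
    have := hkp.two_le
    omega
  set c' : ZMod k := c * 2⁻¹ with hc'
  have hcc : c = 2 * c' := by
    rw [hc', mul_comm c, ← mul_assoc, mul_inv_cancel₀ h2ne, one_mul]
  set A : ℤ := (c'.val : ℤ) with hA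
  set C : ℤ := (q : ℤ) * A / k with hC
  let J : ℕ → ℕ := fun i => ((C + i * a) % q).toNat
  have hJc : ∀ i, ((J i : ℕ) : ℤ) = (C + i * a) % q := fun i =>
    Int.toNat_of_nonneg (Int.emod_nonneg _ hqZ.ne')
  have hJlt : ∀ i, J i < q := fun i => by
    have := Int.emod_lt_of_pos (C + i * a) hqZ
    rw [← hJc i] at this
    exact_mod_cast this
  have hJinj : Set.InjOn J (range q : Finset ℕ) := by
    intro i hi i' hi' h
    rw [coe_range, Set.mem_Iio] at hi hi'
    have h1 : (C + i * a) % q = (C + i' * a) % (q : ℤ) := by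
      rw [← hJc i, ← hJc i', h]
    have h2 : (q : ℤ) ∣ (i - i') * a := by
      have h3 := Int.emod_emod_of_dvd
      have h4 : (q : ℤ) ∣ (C + i * a) - (C + i' * a) := Int.dvd_of_emod_eq_zero (by
        rw [Int.sub_emod, h1, sub_self, Int.zero_emod])
      have : ((C + i * a) - (C + i' * a) : ℤ) = (i - i') * a := by ring
      rwa [this] at h4
    have hco : IsCoprime (q : ℤ) a := (Int.isCoprime_iff_gcd_eq_one.2 hgcd).symm
    have h3 : (q : ℤ) ∣ (i - i') := hco.dvd_of_dvd_mul_right h2
    have h4 : |((i : ℤ) - i')| < q := by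
      rw [abs_lt]
      constructor <;> omega
    have h5 : (i : ℤ) - i' = 0 := Int.eq_zero_of_abs_lt_dvd h3 h4
    omega
  have himg : (range q).image J = range q := by
    refine Finset.eq_of_subset_of_card_le ?_ ?_
    · intro y hy
      rw [mem_image] at hy
      obtain ⟨i, -, rfl⟩ := hy
      exact mem_range.2 (hJlt i)
    · rw [card_image_of_injOn hJinj]
  have hsum : ∀ f : ℕ → ℝ, ∑ i ∈ range q, f (J i) = ∑ j ∈ range q, f j := by
    intro f
    conv_rhs => rw [← himg]
    rw [Finset.sum_image hJinj]
  -- pointwise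
  have hpt : ∀ i ∈ range q, |eps k (c + 2 * (i : ZMod k) * θ) - sg q (J i)| ≤
      if J i ∈ ex q then 2 else 0 := by
    intro i hi
    rw [mem_range] at hi
    split_ifs with hex
    · have h1 := eps_abs k (c + 2 * (i : ZMod k) * θ)
      have h2 := sg_abs q (J i)
      calc _ ≤ |eps k (c + 2 * (i : ZMod k) * θ)| + |sg q (J i)| := abs_sub _ _
        _ ≤ 2 := by linarith
    · have hJi := hJlt i
      have hJi' := hJc i
      set j := J i with hj
      simp only [ex, mem_insert, mem_singleton, not_or] at hex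
      obtain ⟨e0, e1, e2, e3, e4, e5⟩ := hex
      set y : ZMod k := c' + i * θ with hy
      have hx : c + 2 * (i : ZMod k) * θ = 2 * y := by
        rw [hcc, hy]; ring
      set v := y.val with hv
      have hvlt : v < k := ZMod.val_lt y
      have hyc : y = ((c'.val + i * θ.val : ℕ) : ZMod k) := by
        push_cast
        rw [ZMod.natCast_zmod_val, ZMod.natCast_zmod_val]
      have hvmod : v = (c'.val + i * θ.val) % k := by
        rw [hv]
        conv_lhs => rw [hyc]
        rw [ZMod.val_natCast]
      obtain ⟨M, hM⟩ : ∃ M : ℤ, A + i * (θ.val : ℤ) = k * M + v := by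
        refine ⟨((c'.val + i * θ.val) / k : ℕ), ?_⟩
        have := Nat.div_add_mod (c'.val + i * θ.val) k
        rw [hA, hvmod]
        exact_mod_cast this.symm
      have hρ1 : 0 ≤ (q : ℤ) * A - k * C := by
        have := Int.mul_ediv_self_le (x := (q : ℤ) * A) (k := (k : ℤ)) hkZ.ne'
        rw [← hC] at this
        linarith
      have hρ2 : (q : ℤ) * A - k * C < k := by
        have := Int.lt_mul_ediv_self_add (x := (q : ℤ) * A) hkZ
        rw [← hC] at this
        linarith
      obtain ⟨L, hL⟩ : ∃ L : ℤ, C + i * a = q * L + j := by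
        refine ⟨(C + i * a) / q, ?_⟩
        rw [hJi']
        exact (Int.mul_ediv_add_emod _ _).symm
      have hiz : |(i : ℤ) * z| < k := by
        rw [abs_mul, Nat.abs_cast]
        rcases eq_or_lt_of_le (abs_nonneg z) with h0 | h0
        · rw [← h0, mul_zero]; exact hkZ
        · calc (i : ℤ) * |z| < q * |z| := by
                refine mul_lt_mul_of_pos_right ?_ h0
                exact_mod_cast hi
            _ = |z| * q := mul_comm _ _
            _ ≤ k := hz
      rw [abs_lt] at hiz
      -- q v = k (j + q (L - M)) + (rho + i z)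
      have hqv : (q : ℤ) * v = k * (j + q * (L - M)) + (((q : ℤ) * A - k * C) + i * z) := by
        have h1 : (q : ℤ) * (A + i * (θ.val : ℤ)) = q * (k * M + v) := by rw [hM]
        have h2 : k * (C + i * a) = k * (q * L + j) := by rw [hL]
        rw [hzdef]
        linear_combination h2 - h1
      have hqv0 : 0 ≤ (q : ℤ) * v := by positivity
      have hqvq : (q : ℤ) * v < q * k := by
        refine mul_lt_mul_of_pos_left ?_ hqZ
        exact_mod_cast hvlt
      have hjq : (1 : ℤ) ≤ j ∧ (j : ℤ) ≤ q - 2 := by omega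
      have hLM : L - M = 0 := by
        have h1 : (k : ℤ) * (j + q * (L - M)) < k * (q + 1) := by linarith
        have h2 : (k : ℤ) * (-2) < k * (j + q * (L - M)) := by linarith
        have h3 := lt_of_mul_lt_mul_left h1 hkZ.le
        have h4 := lt_of_mul_lt_mul_left h2 hkZ.le
        have h5 : (q : ℤ) * (L - M) < q * 1 + q * 0 + (1 - j) := by linarith
        have h6 : (q : ℤ) * (L - M) < q * 1 := by linarith [hjq.1]
        have h7 : (q : ℤ) * (-1) < q * (L - M) := by linarith [hjq.2]
        have h8 := lt_of_mul_lt_mul_left h6 hqZ.le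
        have h9 := lt_of_mul_lt_mul_left h7 hqZ.le
        omega
      rw [hLM, mul_zero, add_zero] at hqv
      have hlow : (k : ℤ) * (j - 1) < q * v := by linarith
      have hupp : (q : ℤ) * v < k * (j + 2) := by linarith
      rw [hx]
      rcases lt_or_ge (2 * j) q with hcase | hcase
      · -- low
        have hj2 : 2 ≤ j := by omega
        have hj3 : 2 * (j + 2) ≤ q := by omega
        have hv0 : 0 < v := by
          rcases Nat.eq_zero_or_pos v with h0 | h0
          · exfalso
            rw [h0] at hlow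
            have : (0 : ℤ) ≤ k * (j - 1) := mul_nonneg hkZ.le (by omega)
            simp at hlow
            linarith
          · exact h0
        have hv1 : 2 * v < k := by
          have h1 : (q : ℤ) * (2 * v) < q * k := by
            have h3' : (2 : ℤ) * (j + 2) ≤ q := by exact_mod_cast hj3
            have : (k : ℤ) * (2 * (j + 2)) ≤ k * q := mul_le_mul_of_nonneg_left h3' hkZ.le
            linarith
          have := lt_of_mul_lt_mul_left h1 hqZ.le
          exact_mod_cast this
        rw [eps_low k y hv0 hv1]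
        have : sg q j = -1 := by
          unfold sg
          rw [if_neg (by omega), if_pos (by omega)]
          norm_num
        rw [this]; simp
      · -- high
        have hj3 : q + 2 ≤ 2 * j := by omega
        have hv1 : k < 2 * v := by
          have h1 : (q : ℤ) * k < q * (2 * v) := by
            have h3' : (q : ℤ) ≤ 2 * (j - 1) := by omega
            have : (k : ℤ) * q ≤ k * (2 * (j - 1)) := mul_le_mul_of_nonneg_left h3' hkZ.le
            linarith
          have := lt_of_mul_lt_mul_left h1 hqZ.le
          exact_mod_cast this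
        rw [eps_high k hk2 y hv1]
        have : sg q j = 1 := by
          unfold sg
          rw [if_pos (by omega), if_neg (by omega)]
          norm_num
        rw [this]; simp
  have h1 : ∑ i ∈ range q, eps k (c + 2 * (i : ZMod k) * θ) =
      ∑ i ∈ range q, (eps k (c + 2 * (i : ZMod k) * θ) - sg q (J i)) := by
    rw [Finset.sum_sub_distrib, hsum (fun j => sg q j), sg_sum, sub_zero]
  rw [h1]
  refine (Finset.abs_sum_le_sum_abs _ _).trans ((Finset.sum_le_sum hpt).trans ?_)
  rw [hsum (fun j => if j ∈ ex q then (2 : ℝ) else 0), ← Finset.sum_filter, Finset.sum_const,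
    nsmul_eq_mul]
  have h2 : #((range q).filter (fun j => j ∈ ex q)) ≤ 6 := by
    refine (Finset.card_le_card ?_).trans (ex_card q)
    intro j hj
    exact (mem_filter.1 hj).2
  have h3 : ((#((range q).filter (fun j => j ∈ ex q)) : ℕ) : ℝ) ≤ 6 := by exact_mod_cast h2
  linarith

end Pool.Agent.H21.SK
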