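import Pool.Agent.H46.SK.Targets

/-!
# MP_2fe131_nt, module RAM
-/

namespace Pool.Agent.H21.SKR

open _root_.SK Finset

/-- Number of elements of `A` dividing `n`. -/
def om (A : Finset ℕ) (n : ℕ) : ℕ := #(A.filter (fun p => p ∣ n))

/-- The weight. -/
noncomputable def aa (A B : Finset ℕ) (m : ℕ) : ℝ :=
  1 / (((om A m : ℝ) + 1) * ((om B m : ℝ) + 1))

/-- Pairs whose product divides `n`. -/
def TT (A B : Finset ℕ) (n : ℕ) : Finset (ℕ × ℕ) := (A ×ˢ B).filter (fun x => x.1 * x.2 ∣ n)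

/-- The total weight of `n`. -/
noncomputable def rho (A B : Finset ℕ) (n : ℕ) : ℝ := ∑ x ∈ TT A B n, aa A B (n / (x.1 * x.2))

theorem aa_nonneg (A B : Finset ℕ) (m : ℕ) : 0 ≤ aa A B m := by
  unfold aa; positivity

theorem aa_le_one (A B : Finset ℕ) (m : ℕ) : aa A B m ≤ 1 := by
  unfold aa
  have h1 : (0 : ℝ) ≤ om A m := by positivity
  have h2 : (0 : ℝ) ≤ om B m := by positivity
  rw [div_le_one (by positivity)]
  nlinarith

theorem om_le {C : Finset ℕ} (hC : ∀ p ∈ C, p.Prime) {r s m : ℕ} (hr : r.Prime) (hs : s.Prime)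
    (hsC : s ∉ C) : om C (r * s * m) ≤ om C m + 1 := by
  classical
  unfold om
  refine (Finset.card_le_card ?_).trans (Finset.card_insert_le r _)
  intro p hp
  rw [mem_filter] at hp
  rw [mem_insert, mem_filter]
  by_cases hpr : p = r
  · exact Or.inl hpr
  · right
    refine ⟨hp.1, ?_⟩
    have hpp := hC p hp.1
    rcases (hpp.dvd_mul.1 hp.2) with h | h
    · exfalso
      rcases (hpp.dvd_mul.1 h) with h | h
      · exact hpr ((Nat.prime_dvd_prime_iff_eq hpp hr).1 h)
      · have := (Nat.prime_dvd_prime_iff_eq hpp hs).1 h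
        exact hsC (this ▸ hp.1)
    · exact h

theorem om_eq {C : Finset ℕ} (hC : ∀ p ∈ C, p.Prime) {r s m : ℕ} (hr : r.Prime) (hs : s.Prime)
    (hsC : s ∉ C) (hrC : r ∈ C) (hsq : ¬ r ^ 2 ∣ r * s * m) : om C (r * s * m) = om C m + 1 := by
  classical
  refine le_antisymm (om_le hC hr hs hsC) ?_
  unfold om
  have hrm : r ∉ C.filter (fun p => p ∣ m) := by
    intro h
    rw [mem_filter] at h
    apply hsq
    obtain ⟨t, ht⟩ := h.2
    exact ⟨s * t, by rw [ht]; ring⟩
  rw [← Finset.card_insert_of_notMem hrm]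
  refine Finset.card_le_card ?_
  intro p hp
  rw [mem_insert, mem_filter] at hp
  rw [mem_filter]
  rcases hp with rfl | hp
  · exact ⟨hrC, Dvd.intro _ (by rw [mul_assoc])⟩
  · exact ⟨hp.1, hp.2.mul_left _⟩

theorem TT_eq {A B : Finset ℕ} (hA : ∀ p ∈ A, p.Prime) (hB : ∀ p ∈ B, p.Prime)
    (hAB : Disjoint A B) (n : ℕ) :
    TT A B n = A.filter (fun p => p ∣ n) ×ˢ B.filter (fun p => p ∣ n) := by
  ext ⟨p, q⟩
  simp only [TT, mem_filter, mem_product]
  constructor
  · rintro ⟨⟨hp, hq⟩, h⟩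
    exact ⟨⟨hp, (Dvd.intro _ rfl).trans h⟩, hq, (Dvd.intro_left _ rfl).trans h⟩
  · rintro ⟨⟨hp, h1⟩, hq, h2⟩
    refine ⟨⟨hp, hq⟩, ?_⟩
    refine Nat.Coprime.mul_dvd_of_dvd_of_dvd ?_ h1 h2
    rw [Nat.coprime_primes (hA p hp) (hB q hq)]
    rintro rfl
    exact Finset.disjoint_left.1 hAB hp hq

theorem rho_nonneg (A B : Finset ℕ) (n : ℕ) : 0 ≤ rho A B n :=
  Finset.sum_nonneg fun _ _ => aa_nonneg _ _ _

theorem rho_le_one {A B : Finset ℕ} (hA : ∀ p ∈ A, p.Prime) (hB : ∀ p ∈ B, p.Prime)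
    (hAB : Disjoint A B) (n : ℕ) : rho A B n ≤ 1 := by
  have hb : ∀ x ∈ TT A B n, aa A B (n / (x.1 * x.2)) ≤ 1 / ((om A n : ℝ) * om B n) := by
    rintro ⟨p, q⟩ hx
    have hx' := hx
    rw [TT_eq hA hB hAB] at hx'
    simp only [TT, mem_filter, mem_product] at hx
    obtain ⟨⟨hp, hq⟩, m, rfl⟩ := hx
    have hpp := hA p hp
    have hqp := hB q hq
    have hpos : 0 < p * q := Nat.mul_pos hpp.pos hqp.pos
    simp only
    rw [Nat.mul_div_cancel_left _ hpos]
    have h1 : om A (p * q * m) ≤ om A m + 1 :=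
      om_le hA hpp hqp (fun h => Finset.disjoint_left.1 hAB h hq)
    have h2 : om B (p * q * m) ≤ om B m + 1 := by
      rw [mul_comm p q]
      exact om_le hB hqp hpp (fun h => Finset.disjoint_left.1 hAB hp h)
    simp only [mem_product] at hx'
    have h3 : 0 < om A (p * q * m) := Finset.card_pos.2 ⟨p, hx'.1⟩
    have h4 : 0 < om B (p * q * m) := Finset.card_pos.2 ⟨q, hx'.2⟩
    have h1' : (om A (p * q * m) : ℝ) ≤ om A m + 1 := by exact_mod_cast h1
    have h2' : (om B (p * q * m) : ℝ) ≤ om B m + 1 := by exact_mod_cast h2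
    have h3' : (0 : ℝ) < om A (p * q * m) := by exact_mod_cast h3
    have h4' : (0 : ℝ) < om B (p * q * m) := by exact_mod_cast h4
    unfold aa
    exact one_div_le_one_div_of_le (by positivity) (mul_le_mul h1' h2' h4'.le (by positivity))
  calc rho A B n ≤ ∑ x ∈ TT A B n, 1 / ((om A n : ℝ) * om B n) := Finset.sum_le_sum hb
    _ = ((om A n : ℝ) * om B n) * (1 / ((om A n : ℝ) * om B n)) := by
        rw [Finset.sum_const, nsmul_eq_mul, TT_eq hA hB hAB, Finset.card_product]
        push_cast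
        rfl
    _ ≤ 1 := by
        rcases eq_or_ne ((om A n : ℝ) * om B n) 0 with h | h
        · rw [h]; norm_num
        · rw [mul_one_div_cancel h]

theorem rho_eq_one {A B : Finset ℕ} (hA : ∀ p ∈ A, p.Prime) (hB : ∀ p ∈ B, p.Prime)
    (hAB : Disjoint A B) (n : ℕ) (h1 : ∃ p ∈ A, p ∣ n) (h2 : ∃ p ∈ B, p ∣ n)
    (h3 : ∀ p ∈ A ∪ B, ¬ p ^ 2 ∣ n) : rho A B n = 1 := by
  have hb : ∀ x ∈ TT A B n, aa A B (n / (x.1 * x.2)) = 1 / ((om A n : ℝ) * om B n) := by
    rintro ⟨p, q⟩ hx
    simp only [TT, mem_filter, mem_product] at hx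
    obtain ⟨⟨hp, hq⟩, m, rfl⟩ := hx
    have hpp := hA p hp
    have hqp := hB q hq
    have hpos : 0 < p * q := Nat.mul_pos hpp.pos hqp.pos
    simp only
    rw [Nat.mul_div_cancel_left _ hpos]
    have h1 : om A (p * q * m) = om A m + 1 :=
      om_eq hA hpp hqp (fun h => Finset.disjoint_left.1 hAB h hq) hp
        (h3 p (mem_union_left _ hp))
    have h2 : om B (p * q * m) = om B m + 1 := by
      have := h3 q (mem_union_right _ hq)
      rw [mul_comm p q] at this ⊢
      exact om_eq hB hqp hpp (fun h => Finset.disjoint_left.1 hAB hp h) hq this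
    rw [h1, h2]
    unfold aa
    push_cast
    rfl
  obtain ⟨p, hp, hpn⟩ := h1
  obtain ⟨q, hq, hqn⟩ := h2
  have h4 : 0 < om A n := Finset.card_pos.2 ⟨p, mem_filter.2 ⟨hp, hpn⟩⟩
  have h5 : 0 < om B n := Finset.card_pos.2 ⟨q, mem_filter.2 ⟨hq, hqn⟩⟩
  have h4' : (0 : ℝ) < om A n := by exact_mod_cast h4
  have h5' : (0 : ℝ) < om B n := by exact_mod_cast h5
  calc rho A B n = ∑ x ∈ TT A B n, 1 / ((om A n : ℝ) * om B n) := Finset.sum_congr rfl hb
    _ = ((om A n : ℝ) * om B n) * (1 / ((om A n : ℝ) * om B n)) := by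
        rw [Finset.sum_const, nsmul_eq_mul, TT_eq hA hB hAB, Finset.card_product]
        push_cast
        rfl
    _ = 1 := mul_one_div_cancel (by positivity)

theorem inv_le_log (b : ℕ) (hb : 1 ≤ b) :
    (1 : ℝ) / ((b : ℝ) + 1) ≤ Real.log ((b : ℝ) + 1) - Real.log b := by
  have hb' : (0 : ℝ) < b := by exact_mod_cast hb
  have h := Real.log_le_sub_one_of_pos (x := (b : ℝ) / (b + 1)) (by positivity)
  rw [Real.log_div hb'.ne' (by positivity)] at h
  have : (b : ℝ) / (b + 1) - 1 = - (1 / ((b : ℝ) + 1)) := by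
    field_simp
    ring
  linarith

theorem sum_Ioc_le (a b : ℕ) (ha : 1 ≤ a) (hab : a ≤ b) :
    ∑ n ∈ Finset.Ioc a b, (1 : ℝ) / n ≤ Real.log b - Real.log a := by
  induction b, hab using Nat.le_induction with
  | base => simp
  | succ b hb ih =>
    rw [← Finset.insert_Ioc_right_eq_Ioc_add_one hb, Finset.sum_insert (by simp)]
    have := inv_le_log b (ha.trans hb)
    push_cast
    linarith

theorem sum_Ico_le (k : ℕ) (hk : 2 ≤ k) :
    ∑ n ∈ Finset.Ico 1 k, (1 : ℝ) / n ≤ 1 + Real.log k := by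
  have h1 : Finset.Ico 1 k = insert 1 (Finset.Ioc 1 (k - 1)) := by
    ext n
    simp only [mem_Ico, mem_insert, mem_Ioc]
    omega
  rw [h1, Finset.sum_insert (by simp)]
  have h2 := sum_Ioc_le 1 (k - 1) le_rfl (by omega)
  have h3 : Real.log ((k - 1 : ℕ) : ℝ) ≤ Real.log k := by
    refine Real.log_le_log ?_ ?_
    · have : 0 < k - 1 := by omega
      exact_mod_cast this
    · have : k - 1 ≤ k := by omega
      exact_mod_cast this
  simp only [Nat.cast_one, Real.log_one, sub_zero] at h2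
  have : (1 : ℝ) / ((1 : ℕ) : ℝ) = 1 := by norm_num
  rw [this]
  linarith

theorem sum_sq_le (k : ℕ) (hk : 2 ≤ k) (p : ℕ) (hp : 0 < p) :
    ∑ n ∈ (odds k).filter (fun n => p ^ 2 ∣ n), (1 : ℝ) / n ≤
      (1 + Real.log k) * (1 / (p : ℝ) ^ 2) := by
  have hp2 : 0 < p ^ 2 := by positivity
  have hinj : Set.InjOn (fun n : ℕ => (n / p ^ 2 : ℕ))
      ((odds k).filter (fun n => p ^ 2 ∣ n) : Finset ℕ) := by
    intro a ha b hb h
    simp only [coe_filter, Set.mem_ofPred_eq] at ha hb
    have h1 := Nat.div_mul_cancel ha.2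
    have h2 := Nat.div_mul_cancel hb.2
    simp only at h
    rw [← h1, ← h2, h]
  have h1 : ∑ n ∈ (odds k).filter (fun n => p ^ 2 ∣ n), (1 : ℝ) / n =
      ∑ m ∈ ((odds k).filter (fun n => p ^ 2 ∣ n)).image (fun n : ℕ => (n / p ^ 2 : ℕ)),
        (1 / (p : ℝ) ^ 2) * (1 / (m : ℝ)) := by
    rw [Finset.sum_image hinj]
    refine Finset.sum_congr rfl fun n hn => ?_
    rw [mem_filter] at hn
    obtain ⟨m, rfl⟩ := hn.2
    rw [Nat.mul_div_cancel_left _ hp2]
    push_cast
    rw [one_div_mul_one_div]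
  rw [h1, ← Finset.mul_sum, mul_comm]
  refine mul_le_mul_of_nonneg_right ?_ (by positivity)
  refine (Finset.sum_le_sum_of_subset_of_nonneg ?_ ?_).trans (sum_Ico_le k hk)
  · intro m hm
    rw [mem_image] at hm
    obtain ⟨n, hn, rfl⟩ := hm
    rw [mem_filter, odds, mem_filter, mem_range] at hn
    rw [mem_Ico]
    have hn0 : 0 < n := by
      rcases Nat.eq_zero_or_pos n with h | h
      · rw [h] at hn; simp at hn
      · exact h
    constructor
    · exact Nat.div_pos (Nat.le_of_dvd hn0 hn.2) hp2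
    · exact (Nat.div_le_self _ _).trans_lt hn.1.1
  · intro m _ _
    positivity

theorem pf_RAM : TARGET_RAM := by
  classical
  intro k z N A B hk hz hA hB hAB
  have hAp : ∀ p ∈ A, p.Prime := fun p hp => (hA p hp).1
  have hBp : ∀ p ∈ B, p.Prime := fun p hp => (hB p hp).1
  refine ⟨aa A B, fun m => ⟨aa_nonneg _ _ _, aa_le_one _ _ _⟩, ?_⟩
  intro f hf
  set D := (odds k).filter (fun n => N < n) with hD
  set E := (odds k).filter (fun m => N < m ∧ m * z ^ 2 < k) with hE
  set F : Finset (ℕ × (ℕ × ℕ)) := (D ×ˢ (A ×ˢ B)).filter (fun y => y.2.1 * y.2.2 ∣ y.1) with hF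
  let G : ℕ × (ℕ × ℕ) → ℝ := fun y => aa A B (y.1 / (y.2.1 * y.2.2)) * f y.1 / y.1
  have hoddA : ∀ p ∈ A, p % 2 = 1 := fun p hp =>
    ((hA p hp).1.eq_two_or_odd).resolve_left (by have := (hA p hp).2.1; omega)
  have hoddB : ∀ p ∈ B, p % 2 = 1 := fun p hp =>
    ((hB p hp).1.eq_two_or_odd).resolve_left (by have := (hB p hp).2.1; omega)
  have hDpos : ∀ n ∈ D, 0 < n ∧ n < k ∧ n % 2 = 1 ∧ N < n := by
    intro n hn
    rw [hD, mem_filter, odds, mem_filter, mem_range] at hn
    omega
  -- second sum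
  have hS2 : ∑ m ∈ E, aa A B m / m * ∑ p ∈ A, ∑ q ∈ B, 1 / ((p : ℝ) * q) * f (p * q * m) =
      ∑ y ∈ F.filter (fun y => y.1 / (y.2.1 * y.2.2) ∈ E), G y := by
    have h1 : ∑ m ∈ E, aa A B m / m * ∑ p ∈ A, ∑ q ∈ B, 1 / ((p : ℝ) * q) * f (p * q * m) =
        ∑ x ∈ E ×ˢ (A ×ˢ B), aa A B x.1 / x.1 * (1 / ((x.2.1 : ℝ) * x.2.2) *
          f (x.2.1 * x.2.2 * x.1)) := by
      rw [Finset.sum_product]
      refine Finset.sum_congr rfl fun m _ => ?_
      rw [Finset.sum_product, Finset.mul_sum]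
      refine Finset.sum_congr rfl fun p _ => ?_
      rw [Finset.mul_sum]
    rw [h1]
    refine Finset.sum_nbij' (fun x => (x.2.1 * x.2.2 * x.1, x.2))
      (fun y => (y.1 / (y.2.1 * y.2.2), y.2)) ?_ ?_ ?_ ?_ ?_
    · rintro ⟨m, p, q⟩ hx
      simp only [mem_product] at hx
      obtain ⟨hm, hp, hq⟩ := hx
      have hpp := hA p hp
      have hqq := hB q hq
      have hpos : 0 < p * q := Nat.mul_pos hpp.1.pos hqq.1.pos
      have hm' := hm
      rw [hE, mem_filter, odds, mem_filter, mem_range] at hm'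
      simp only [hF, mem_filter, mem_product]
      rw [Nat.mul_div_cancel_left _ hpos]
      refine ⟨⟨⟨?_, hp, hq⟩, Dvd.intro _ rfl⟩, hm⟩
      rw [hD, mem_filter, odds, mem_filter, mem_range]
      have hle : p * q ≤ z ^ 2 := by
        rw [sq]; exact Nat.mul_le_mul hpp.2.2 hqq.2.2
      have h3 : p * q * m ≤ m * z ^ 2 := by
        rw [mul_comm (p * q) m]; exact Nat.mul_le_mul_left _ hle
      have h4 : m ≤ p * q * m := Nat.le_mul_of_pos_left _ hpos
      refine ⟨⟨by omega, ?_⟩, by omega⟩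
      have hpo := hoddA p hp
      have hqo := hoddB q hq
      rw [Nat.mul_mod, Nat.mul_mod p q, hpo, hqo, hm'.1.2]
    · rintro ⟨n, p, q⟩ hy
      simp only [hF, mem_filter, mem_product] at hy
      simp only [mem_product]
      exact ⟨hy.2, hy.1.1.2⟩
    · rintro ⟨m, p, q⟩ hx
      simp only [mem_product] at hx
      have hpos : 0 < p * q := Nat.mul_pos (hA p hx.2.1).1.pos (hB q hx.2.2).1.pos
      simp only [Nat.mul_div_cancel_left _ hpos]
    · rintro ⟨n, p, q⟩ hy
      simp only [hF, mem_filter, mem_product] at hy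
      simp only [Nat.mul_div_cancel' hy.1.2]
    · rintro ⟨m, p, q⟩ hx
      simp only [mem_product] at hx
      have hpos : 0 < p * q := Nat.mul_pos (hA p hx.2.1).1.pos (hB q hx.2.2).1.pos
      simp only [G, Nat.mul_div_cancel_left _ hpos]
      have hp0 : (p : ℝ) ≠ 0 := by exact_mod_cast (hA p hx.2.1).1.ne_zero
      have hq0 : (q : ℝ) ≠ 0 := by exact_mod_cast (hB q hx.2.2).1.ne_zero
      push_cast
      rcases eq_or_ne (m : ℝ) 0 with h | h
      · rw [h]; simp
      · field_simp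
  have hS3 : ∀ (g : ℕ → ℝ) (W : Finset ℕ),
      ∑ y ∈ (W ×ˢ (A ×ˢ B)).filter (fun y => y.2.1 * y.2.2 ∣ y.1),
        aa A B (y.1 / (y.2.1 * y.2.2)) * g y.1 = ∑ n ∈ W, rho A B n * g n := by
    intro g W
    rw [Finset.sum_filter, Finset.sum_product]
    refine Finset.sum_congr rfl fun n _ => ?_
    rw [rho, TT, Finset.sum_filter, Finset.sum_mul]
    refine Finset.sum_congr rfl fun x _ => ?_
    simp only
    split_ifs <;> simp
  have hFsum : ∑ y ∈ F, G y = ∑ n ∈ D, rho A B n * (f n / n) := by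
    rw [← hS3 (fun n => f n / n) D]
    refine Finset.sum_congr rfl fun y _ => ?_
    simp only [G]
    ring
  have hsplit := Finset.sum_filter_add_sum_filter_not F
    (fun y => y.1 / (y.2.1 * y.2.2) ∈ E) G
  rw [hS2]
  have hmain : ∑ n ∈ D, f n / n - ∑ y ∈ F.filter (fun y => y.1 / (y.2.1 * y.2.2) ∈ E), G y =
      ∑ n ∈ D, (1 - rho A B n) * (f n / n) +
        ∑ y ∈ F.filter (fun y => ¬ y.1 / (y.2.1 * y.2.2) ∈ E), G y := by
    have h1 : ∑ n ∈ D, (1 - rho A B n) * (f n / n) =
        ∑ n ∈ D, f n / n - ∑ n ∈ D, rho A B n * (f n / n) := by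
      rw [← Finset.sum_sub_distrib]
      refine Finset.sum_congr rfl fun n _ => by ring
    rw [h1, ← hFsum, ← hsplit]
    ring
  rw [hmain]
  refine (abs_add_le _ _).trans ?_
  have hfn : ∀ n : ℕ, |f n / n| ≤ 1 / n := by
    intro n
    rw [abs_div, Nat.abs_cast]
    exact div_le_div_of_nonneg_right (hf n) (by positivity)
  -- first part
  have hP1 : |∑ n ∈ D, (1 - rho A B n) * (f n / n)| ≤
      ∑ n ∈ (odds k).filter (fun n => ∀ p ∈ A, ¬ p ∣ n), (1 : ℝ) / n
     + ∑ n ∈ (odds k).filter (fun n => ∀ p ∈ B, ¬ p ∣ n), (1 : ℝ) / n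
     + (1 + Real.log k) * ∑ p ∈ A ∪ B, (1 : ℝ) / p ^ 2 := by
    have hterm : ∀ n ∈ D, |(1 - rho A B n) * (f n / n)| ≤
        (if ∀ p ∈ A, ¬ p ∣ n then (1 : ℝ) / n else 0) +
        (if ∀ p ∈ B, ¬ p ∣ n then (1 : ℝ) / n else 0) +
        ∑ p ∈ A ∪ B, (if p ^ 2 ∣ n then (1 : ℝ) / n else 0) := by
      intro n hn
      have h0 : (0 : ℝ) ≤ 1 / n := by positivity
      have hs : 0 ≤ ∑ p ∈ A ∪ B, (if p ^ 2 ∣ n then (1 : ℝ) / n else 0) :=
        Finset.sum_nonneg fun p _ => by split_ifs <;> [exact h0; exact le_rfl]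
      have ha : 0 ≤ (if ∀ p ∈ A, ¬ p ∣ n then (1 : ℝ) / n else 0) := by
        split_ifs <;> [exact h0; exact le_rfl]
      have hb : 0 ≤ (if ∀ p ∈ B, ¬ p ∣ n then (1 : ℝ) / n else 0) := by
        split_ifs <;> [exact h0; exact le_rfl]
      have hr0 := rho_nonneg A B n
      have hr1 := rho_le_one hAp hBp hAB n
      have hup : |(1 - rho A B n) * (f n / n)| ≤ 1 / n := by
        rw [abs_mul, abs_of_nonneg (by linarith : 0 ≤ 1 - rho A B n)]
        calc (1 - rho A B n) * |f n / n| ≤ 1 * |f n / n| :=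
              mul_le_mul_of_nonneg_right (by linarith) (abs_nonneg _)
          _ ≤ 1 / n := by rw [one_mul]; exact hfn n
      by_cases h1 : ∀ p ∈ A, ¬ p ∣ n
      · rw [if_pos h1]; linarith
      by_cases h2 : ∀ p ∈ B, ¬ p ∣ n
      · rw [if_pos h2]; linarith
      by_cases h3 : ∀ p ∈ A ∪ B, ¬ p ^ 2 ∣ n
      · push Not at h1 h2
        rw [rho_eq_one hAp hBp hAB n h1 h2 h3]
        simp only [sub_self, zero_mul, abs_zero]
        linarith
      · push Not at h3
        obtain ⟨p, hp, hpn⟩ := h3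
        have : (1 : ℝ) / n ≤ ∑ p ∈ A ∪ B, (if p ^ 2 ∣ n then (1 : ℝ) / n else 0) := by
          have := Finset.single_le_sum (f := fun p => (if p ^ 2 ∣ n then (1 : ℝ) / n else 0))
            (s := A ∪ B) (fun q _ => by
              show (0 : ℝ) ≤ if q ^ 2 ∣ n then (1 : ℝ) / n else 0
              split_ifs <;> [exact h0; exact le_rfl]) hp
          simp only [if_pos hpn] at this
          exact this
        linarith
    refine (Finset.abs_sum_le_sum_abs _ _).trans ((Finset.sum_le_sum hterm).trans ?_)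
    rw [Finset.sum_add_distrib, Finset.sum_add_distrib]
    have hsubD : D ⊆ odds k := Finset.filter_subset _ _
    have h0 : ∀ n : ℕ, (0 : ℝ) ≤ 1 / n := fun n => by positivity
    refine add_le_add (add_le_add ?_ ?_) ?_
    · rw [← Finset.sum_filter]
      refine Finset.sum_le_sum_of_subset_of_nonneg (Finset.filter_subset_filter _ hsubD)
        (fun n _ _ => h0 n)
    · rw [← Finset.sum_filter]
      refine Finset.sum_le_sum_of_subset_of_nonneg (Finset.filter_subset_filter _ hsubD)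
        (fun n _ _ => h0 n)
    · rw [Finset.sum_comm, Finset.mul_sum]
      refine Finset.sum_le_sum fun p hp => ?_
      rw [← Finset.sum_filter]
      have hp0 : 0 < p := by
        rcases mem_union.1 hp with h | h
        · exact (hA p h).1.pos
        · exact (hB p h).1.pos
      refine (Finset.sum_le_sum_of_subset_of_nonneg (Finset.filter_subset_filter _ hsubD)
        (fun n _ _ => h0 n)).trans (sum_sq_le k (by omega) p hp0)
  -- second part
  have hP2 : |∑ y ∈ F.filter (fun y => ¬ y.1 / (y.2.1 * y.2.2) ∈ E), G y| ≤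
      8 * (1 + Real.log z) := by
    set W := D.filter (fun n => n ≤ N * z ^ 2 ∨ k ≤ n * z ^ 2) with hW
    have h1 : |∑ y ∈ F.filter (fun y => ¬ y.1 / (y.2.1 * y.2.2) ∈ E), G y| ≤
        ∑ y ∈ (W ×ˢ (A ×ˢ B)).filter (fun y => y.2.1 * y.2.2 ∣ y.1),
          aa A B (y.1 / (y.2.1 * y.2.2)) * (1 / (y.1 : ℝ)) := by
      refine (Finset.abs_sum_le_sum_abs _ _).trans ?_
      refine (Finset.sum_le_sum (g := fun y =>
        aa A B (y.1 / (y.2.1 * y.2.2)) * (1 / (y.1 : ℝ))) ?_).trans ?_
      · intro y _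
        simp only [G]
        rw [mul_div_assoc, abs_mul, abs_of_nonneg (aa_nonneg _ _ _)]
        exact mul_le_mul_of_nonneg_left (hfn _) (aa_nonneg _ _ _)
      · refine Finset.sum_le_sum_of_subset_of_nonneg ?_ ?_
        · rintro ⟨n, p, q⟩ hy
          simp only [hF, mem_filter, mem_product] at hy
          obtain ⟨⟨⟨hn, hp, hq⟩, hdvd⟩, hnE⟩ := hy
          simp only [mem_filter, mem_product]
          refine ⟨⟨?_, hp, hq⟩, hdvd⟩
          rw [hW, mem_filter]
          refine ⟨hn, ?_⟩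
          obtain ⟨hn0, hnk, hno, hnN⟩ := hDpos n hn
          obtain ⟨m, rfl⟩ := hdvd
          have hpp := hA p hp
          have hqq := hB q hq
          have hpos : 0 < p * q := Nat.mul_pos hpp.1.pos hqq.1.pos
          rw [Nat.mul_div_cancel_left _ hpos] at hnE
          have hmo : m % 2 = 1 := by
            rcases Nat.mod_two_eq_zero_or_one m with h | h
            · rw [Nat.mul_mod, h] at hno; simp at hno
            · exact h
          have hle : p * q ≤ z ^ 2 := by
            rw [sq]; exact Nat.mul_le_mul hpp.2.2 hqq.2.2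
          have h4 : m ≤ p * q * m := Nat.le_mul_of_pos_left _ hpos
          by_contra hcon
          push Not at hcon
          apply hnE
          rw [hE, mem_filter, odds, mem_filter, mem_range]
          refine ⟨⟨by omega, hmo⟩, ?_, ?_⟩
          · by_contra hmN
            push Not at hmN
            have : p * q * m ≤ N * z ^ 2 := by
              rw [mul_comm N]
              exact Nat.mul_le_mul hle hmN
            omega
          · exact lt_of_le_of_lt (Nat.mul_le_mul_right _ h4) hcon.2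
        · intro y _ _
          exact mul_nonneg (aa_nonneg _ _ _) (by positivity)
    have h2 := hS3 (fun n => 1 / (n : ℝ)) W
    rw [h2] at h1
    have h3 : ∑ n ∈ W, rho A B n * (1 / (n : ℝ)) ≤ ∑ n ∈ W, 1 / (n : ℝ) := by
      refine Finset.sum_le_sum fun n _ => ?_
      have := rho_le_one hAp hBp hAB n
      calc rho A B n * (1 / (n : ℝ)) ≤ 1 * (1 / (n : ℝ)) :=
            mul_le_mul_of_nonneg_right this (by positivity)
        _ = 1 / (n : ℝ) := one_mul _
    have hz0 : (0 : ℝ) < z := by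
      have : 0 < z := by omega
      exact_mod_cast this
    have hlz : 0 ≤ Real.log z := Real.log_nonneg (by
      have : 1 ≤ z := by omega
      exact_mod_cast this)
    have hz2 : 0 < z ^ 2 := by positivity
    -- first range
    have h4 : ∑ n ∈ Finset.Ioc N (N * z ^ 2), (1 : ℝ) / n ≤ 2 * Real.log z := by
      rcases Nat.eq_zero_or_pos N with h | h
      · rw [h]; simp; exact hlz
      · refine (sum_Ioc_le N (N * z ^ 2) h (Nat.le_mul_of_pos_right _ hz2)).trans ?_
        push_cast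
        have hN0 : (0 : ℝ) < N := by exact_mod_cast h
        rw [Real.log_mul hN0.ne' (by positivity), Real.log_pow]
        push_cast
        linarith
    -- second range
    have h5 : ∑ n ∈ (Finset.range k).filter (fun n => k ≤ n * z ^ 2), (1 : ℝ) / n ≤
        1 + 2 * Real.log z := by
      set n0 := (k + z ^ 2 - 1) / z ^ 2 with hn0
      have hn0pos : 1 ≤ n0 := by
        rw [hn0, Nat.one_le_div_iff hz2]
        omega
      have hn0k : k ≤ n0 * z ^ 2 := by
        have := Nat.lt_div_mul_add (a := k + z ^ 2 - 1) hz2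
        rw [← hn0] at this
        omega
      have hmin : ∀ n, k ≤ n * z ^ 2 → n0 ≤ n := by
        intro n hn
        rw [hn0]
        have : k + z ^ 2 - 1 < (n + 1) * z ^ 2 := by
          rw [add_mul, one_mul]; omega
        exact Nat.lt_succ_iff.1 ((Nat.div_lt_iff_lt_mul hz2).2 this)
      rcases le_or_gt k n0 with hc | hc
      · have : (Finset.range k).filter (fun n => k ≤ n * z ^ 2) = ∅ := by
          rw [Finset.filter_eq_empty_iff]
          intro n hn h
          have := hmin n h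
          rw [mem_range] at hn
          omega
        rw [this, Finset.sum_empty]
        linarith
      · have hsub : (Finset.range k).filter (fun n => k ≤ n * z ^ 2) ⊆
            insert n0 (Finset.Ioc n0 (k - 1)) := by
          intro n hn
          rw [mem_filter, mem_range] at hn
          rw [mem_insert, mem_Ioc]
          have := hmin n hn.2
          omega
        refine (Finset.sum_le_sum_of_subset_of_nonneg hsub
          (fun n _ _ => by positivity)).trans ?_
        rw [Finset.sum_insert (by simp)]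
        have h6 := sum_Ioc_le n0 (k - 1) hn0pos (by omega)
        have hn0R : (1 : ℝ) ≤ n0 := by exact_mod_cast hn0pos
        have h7 : (1 : ℝ) / n0 ≤ 1 := by
          rw [div_le_one (by linarith)]; exact hn0R
        have h8 : Real.log ((k - 1 : ℕ) : ℝ) ≤ Real.log n0 + 2 * Real.log z := by
          have : Real.log n0 + 2 * Real.log z = Real.log (n0 * z ^ 2) := by
            rw [Real.log_mul (by linarith) (by positivity), Real.log_pow]
            push_cast; rfl
          rw [this]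
          refine Real.log_le_log ?_ ?_
          · have : 0 < k - 1 := by omega
            exact_mod_cast this
          · have : k - 1 ≤ n0 * z ^ 2 := by omega
            exact_mod_cast this
        linarith
    have h9 : ∑ n ∈ W, 1 / (n : ℝ) ≤ ∑ n ∈ Finset.Ioc N (N * z ^ 2), (1 : ℝ) / n +
        ∑ n ∈ (Finset.range k).filter (fun n => k ≤ n * z ^ 2), (1 : ℝ) / n := by
      have hsub : W ⊆ Finset.Ioc N (N * z ^ 2) ∪
          (Finset.range k).filter (fun n => k ≤ n * z ^ 2) := by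
        intro n hn
        rw [hW, mem_filter] at hn
        obtain ⟨_, hnk, _, hnN⟩ := hDpos n hn.1
        rw [mem_union, mem_Ioc, mem_filter, mem_range]
        rcases hn.2 with h | h
        · exact Or.inl ⟨hnN, h⟩
        · exact Or.inr ⟨hnk, h⟩
      refine (Finset.sum_le_sum_of_subset_of_nonneg hsub (fun n _ _ => by positivity)).trans ?_
      rw [← Finset.sum_union_inter]
      have : (0 : ℝ) ≤ ∑ n ∈ Finset.Ioc N (N * z ^ 2) ∩
          (Finset.range k).filter (fun n => k ≤ n * z ^ 2), (1 : ℝ) / n :=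
        Finset.sum_nonneg fun n _ => by positivity
      linarith
    linarith
  linarith

end Pool.Agent.H21.SKR
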